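import Pool.Agent.W558.RM.RCZ

/-!
MP_602153_ag: for every number field `E` (for instance `E = ℚ`) and every cubic étale algebra `K`
over `E`, the Weil restriction of the projective line from `K` to `E`, a smooth projective
threefold, is the generic fibre of an integral regular scheme, projective and flat over the
integers.
-/

set_option autoImplicit false

open AlgebraicGeometry CategoryTheory CategoryTheory.Limits NumberField

namespace Pool.Agent.Results.MP_602153_ag.CubicWeilRestrictions

/-- The coordinates of the product of `u_0 + u_1 ω + u_2 θ` and `v_0 + v_1 ω + v_2 θ` in the cubic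
algebra with basis `1, ω, θ` and `ω θ = - a d`, `ω ^ 2 = - a c + b ω - a θ`,
`θ ^ 2 = - b d + d ω - c θ`. -/
def mul {R : Type} [CommRing R] (a b c d : R) (u v : Fin 3 → R) : Fin 3 → R :=
  ![u 0 * v 0 - a * c * (u 1 * v 1) - a * d * (u 1 * v 2 + u 2 * v 1) - b * d * (u 2 * v 2),
    u 0 * v 1 + u 1 * v 0 + b * (u 1 * v 1) + d * (u 2 * v 2),
    u 0 * v 2 + u 2 * v 0 - a * (u 1 * v 1) - c * (u 2 * v 2)]

/-- The coordinates of the adjoint of `u` (the product of the two other conjugates of `u`). -/
def adj {R : Type} [CommRing R] (a b c d : R) (u : Fin 3 → R) : Fin 3 → R :=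
  ![u 0 ^ 2 + u 0 * (b * u 1 - c * u 2) + (a * d - b * c) * (u 1 * u 2),
    - (u 0 * u 1) + c * (u 1 * u 2) + d * u 2 ^ 2,
    - (u 0 * u 2) - a * u 1 ^ 2 - b * (u 1 * u 2)]

/-- The product of `u` and its adjoint is the norm of `u`. -/
def norm {R : Type} [CommRing R] (a b c d : R) (u : Fin 3 → R) : R := mul a b c d u (adj a b c d u) 0

/-- The generic element `u`. -/
noncomputable def genU (E : Type) [Field E] (i : Fin 3) : MvPolynomial (Fin 3 × Bool) E :=
  MvPolynomial.X (i, false)

/-- The generic element `v`. -/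
noncomputable def genV (E : Type) [Field E] (i : Fin 3) : MvPolynomial (Fin 3 × Bool) E :=
  MvPolynomial.X (i, true)

open MvPolynomial in
/-- The span of the eight forms: the norm of `u`, the coordinates of the product of `v` and the
adjoint of `u`, the coordinates of the product of `u` and the adjoint of `v`, the norm of `v`. -/
noncomputable def multiForms {E : Type} [Field E] (a b c d : E) :
    Submodule E (MvPolynomial (Fin 3 × Bool) E) :=
  Submodule.span E {z | z = norm (C a) (C b) (C c) (C d) (genU E) ∨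
    (∃ i, z = mul (C a) (C b) (C c) (C d) (genV E) (adj (C a) (C b) (C c) (C d) (genU E)) i) ∨
    (∃ i, z = mul (C a) (C b) (C c) (C d) (genU E) (adj (C a) (C b) (C c) (C d) (genV E)) i) ∨
    z = norm (C a) (C b) (C c) (C d) (genV E)}

theorem result :
    ∀ (E : Type) [Field E] [NumberField E] (a b c d : E),
      b ^ 2 * c ^ 2 - 4 * a * c ^ 3 - 4 * b ^ 3 * d - 27 * a ^ 2 * d ^ 2 +
        18 * a * b * c * d ≠ 0 →
      ∀ (A : Type) [CommRing A] [Algebra E A] (𝒜 : ℕ → Submodule E A)
        [GradedAlgebra 𝒜] (ι : A →ₐ[E] MvPolynomial (Fin 3 × Bool) E),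
        Function.Injective ι →
        (∀ k, (𝒜 k).map ι.toLinearMap = multiForms a b c d ^ k) →
      ∀ (V : Scheme.{0}), Nonempty (V ≅ Proj 𝒜) →
      ∃ (Y : Scheme.{0}),
        IsIntegral Y ∧
        IsLocallyNoetherian Y ∧
        (∀ (U : Y.affineOpens) (p : PrimeSpectrum (Y.presheaf.obj (Opposite.op U.1))),
          ringKrullDim (Localization.AtPrime p.asIdeal) =
            (((Module.finrank (IsLocalRing.ResidueField (Localization.AtPrime p.asIdeal))
              (IsLocalRing.CotangentSpace (Localization.AtPrime p.asIdeal)) : ℕ) : ℕ∞) :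
                WithBot ℕ∞)) ∧
        (∃ (B : Type) (_ : CommRing B) (ℬ : ℕ → Submodule ℤ B) (_ : GradedAlgebra ℬ),
          (∀ a ∈ ℬ 0, ∃ n : ℤ, (n : B) = a) ∧
          (∃ s : Finset B, (∀ a ∈ s, a ∈ ℬ 1) ∧ Algebra.adjoin ℤ (s : Set B) = ⊤) ∧
          Nonempty (Y ≅ Proj ℬ)) ∧
        Flat (specZIsTerminal.from Y) ∧
        Nonempty (pullback (specZIsTerminal.from Y)
            (specZIsTerminal.from (Spec (CommRingCat.of ℚ))) ≅ V) := by
  intro E _ _ a b c d hd A _ _ 𝒜 _ ι hι h𝒜 V hV
  exact Pool.Agent.RM558.NFZ.rc hd 𝒜 ι hι h𝒜 V hV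

end Pool.Agent.Results.MP_602153_ag.CubicWeilRestrictions
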