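import Pool.Agent.W418.Diag3

/-!
MP_602153_ag: regular models, projective and flat over the integers, of diagonal hypersurfaces
`∑ c_i X_i ^ m = 0` of squarefree degree `m ≥ 3` over number fields, in every dimension.
-/

set_option autoImplicit false

open AlgebraicGeometry CategoryTheory CategoryTheory.Limits MvPolynomial

open scoped NumberField

namespace Pool.Agent.Results.MP_602153_ag.DiagonalHypersurfaces

theorem result :
    ∀ (K : Type) [Field K] [NumberField K] (m : ℕ), 3 ≤ m → Squarefree m →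
      ∀ (n : ℕ) (c : Fin (n + 3) → K), (∀ i, c i ≠ 0) →
      (∀ 𝔭 : Ideal (𝓞 K), 𝔭.IsPrime → 𝔭 ≠ ⊥ →
        ∃ (a : Fin (n + 3) → 𝓞 K) (b : Fin (n + 3) → K) (l : K), l ≠ 0 ∧ (∀ i, b i ≠ 0) ∧
          (∀ i, algebraMap (𝓞 K) K (a i) = l * c i * b i ^ m) ∧
          (∀ i, a i ∉ 𝔭 ^ 2) ∧ ((m : 𝓞 K) ∈ 𝔭 → ∀ i, a i ∉ 𝔭) ∧
          (∀ p : ℕ, p.Prime → p ∣ m → (p : 𝓞 K) ∈ 𝔭 →
            (p : 𝓞 K) ∉ 𝔭 ^ 2 ∨
              ∃ r : ℕ, 2 ≤ r ∧ r ∣ p - 1 ∧ (p : 𝓞 K) ∈ 𝔭 ^ r ∧ (p : 𝓞 K) ∉ 𝔭 ^ (r + 1) ∧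
                ∀ i, ∃ (z : ℤ) (y : 𝓞 K), a i - z * y ^ p ∈ 𝔭 ^ (2 * r))) →
      ∀ (B : Type) [CommRing B] [Algebra K B]
        (π : MvPolynomial (Fin (n + 3)) K →ₐ[K] B), Function.Surjective π →
        RingHom.ker π = Ideal.span {∑ i, C (c i) * X i ^ m} →
      ∀ (ℬ : ℕ → Submodule K B) [GradedAlgebra ℬ],
        (∀ d, ℬ d = (homogeneousSubmodule (Fin (n + 3)) K d).map π.toLinearMap) →
      ∀ (V : Scheme.{0}), Nonempty (V ≅ Proj ℬ) →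
      ∃ (Y : Scheme.{0}),
        IsIntegral Y ∧
        IsLocallyNoetherian Y ∧
        (∀ (U : Y.affineOpens) (p : PrimeSpectrum (Y.presheaf.obj (Opposite.op U.1))),
          ringKrullDim (Localization.AtPrime p.asIdeal) =
            (((Module.finrank (IsLocalRing.ResidueField (Localization.AtPrime p.asIdeal))
              (IsLocalRing.CotangentSpace (Localization.AtPrime p.asIdeal)) : ℕ) : ℕ∞) :
                WithBot ℕ∞)) ∧
        (∃ (A : Type) (_ : CommRing A) (𝒜 : ℕ → Submodule ℤ A) (_ : GradedAlgebra 𝒜),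
          (∀ a ∈ 𝒜 0, ∃ n : ℤ, (n : A) = a) ∧
          (∃ s : Finset A, (∀ a ∈ s, a ∈ 𝒜 1) ∧ Algebra.adjoin ℤ (s : Set A) = ⊤) ∧
          Nonempty (Y ≅ Proj 𝒜)) ∧
        Flat (specZIsTerminal.from Y) ∧
        Nonempty (pullback (specZIsTerminal.from Y)
            (specZIsTerminal.from (Spec (CommRingCat.of ℚ))) ≅ V) := by
  intro K _ _ m hm hsq n c hc hH B _ _ π hπ hker ℬ _ hℬ V hV
  refine Pool.Agent.W418.diag_final' (n := n + 1) (by omega) m hm hsq c hc ?_ π hπ hker ℬ hℬ V hV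
  intro 𝔭 h𝔭 h0
  obtain ⟨a, b, l, hl, hb, hab, h2, h3, h1⟩ := hH 𝔭 h𝔭 h0
  exact ⟨a, b, l, hl, hb, hab, h1, h2, h3⟩

end Pool.Agent.Results.MP_602153_ag.DiagonalHypersurfaces
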