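import Pool.Agent.W418.Quad3

/-!
MP_602153_ag: every smooth quadric of positive dimension (any dimension) over a number field is
the generic fibre of an integral regular scheme, projective and flat over the integers.
-/

set_option autoImplicit false

open AlgebraicGeometry CategoryTheory CategoryTheory.Limits MvPolynomial

namespace Pool.Agent.Results.MP_602153_ag.Quadrics

theorem result :
    ∀ (K : Type) [Field K] [NumberField K] (n : ℕ)
      (S : Matrix (Fin (n + 3)) (Fin (n + 3)) K), S.IsSymm → S.det ≠ 0 →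
      ∀ (B : Type) [CommRing B] [Algebra K B]
        (π : MvPolynomial (Fin (n + 3)) K →ₐ[K] B), Function.Surjective π →
        RingHom.ker π = Ideal.span {∑ k, ∑ l, C (S k l) * X k * X l} →
      ∀ (ℬ : ℕ → Submodule K B) [GradedAlgebra ℬ],
        (∀ d, ℬ d = (homogeneousSubmodule (Fin (n + 3)) K d).map π.toLinearMap) →
      ∀ (V : Scheme.{0}), Nonempty (V ≅ Proj ℬ) →
      ∃ (Y : Scheme.{0}),
        IsIntegral Y ∧
        IsLocallyNoetherian Y ∧
        (∀ (U : Y.affineOpens) (p : PrimeSpectrum (Y.presheaf.obj (Opposite.op U.1))),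
          ringKrullDim (Localization.AtPrime p.asIdeal) =
            (((Module.finrank (IsLocalRing.ResidueField (Localization.AtPrime p.asIdeal))
              (IsLocalRing.CotangentSpace (Localization.AtPrime p.asIdeal)) : ℕ) : ℕ∞) :
                WithBot ℕ∞)) ∧
        (∃ (A : Type) (_ : CommRing A) (𝒜 : ℕ → Submodule ℤ A) (_ : GradedAlgebra 𝒜),
          (∀ a ∈ 𝒜 0, ∃ n : ℤ, (n : A) = a) ∧
          (∃ s : Finset A, (∀ a ∈ s, a ∈ 𝒜 1) ∧ Algebra.adjoin ℤ (s : Set A) = ⊤) ∧
          Nonempty (Y ≅ Proj 𝒜)) ∧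
        Flat (specZIsTerminal.from Y) ∧
        Nonempty (pullback (specZIsTerminal.from Y)
            (specZIsTerminal.from (Spec (CommRingCat.of ℚ))) ≅ V) := by
  intro K _ _ n S hS hdet B _ _ π hπ hker ℬ _ hℬ V hV
  exact Pool.Agent.W418.quadric_general (m := n + 1) (by omega) S hS hdet π hπ hker ℬ hℬ V hV

end Pool.Agent.Results.MP_602153_ag.Quadrics
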