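import Pool.Agent.W558.RM.WRZ

/-!
MP_602153_ag: for every number field `E` and every quadratic extension `K = E(√d)`, the Weil
restriction of projective `n`-space from `K` to `E` is the generic fibre of an integral regular
scheme, projective and flat over the integers.
-/

set_option autoImplicit false

open AlgebraicGeometry CategoryTheory CategoryTheory.Limits

namespace Pool.Agent.Results.MP_602153_ag.WeilRestrictions

/-- The span of the coordinates of `z_i * conj z_j` with respect to `1, √d`, where
`z_i = x_i + y_i √d`; here `x_i` is the variable `(i, false)` and `y_i` is the variable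
`(i, true)`. -/
noncomputable def hermitianForms {E : Type} [Field E] (d : E) (n : ℕ) :
    Submodule E (MvPolynomial (Fin (n + 1) × Bool) E) :=
  Submodule.span E {z | ∃ i j,
    z = MvPolynomial.X (i, false) * MvPolynomial.X (j, false) -
      MvPolynomial.C d * (MvPolynomial.X (i, true) * MvPolynomial.X (j, true)) ∨
    z = MvPolynomial.X (i, true) * MvPolynomial.X (j, false) -
      MvPolynomial.X (i, false) * MvPolynomial.X (j, true)}

theorem result :
    ∀ (E : Type) [Field E] [NumberField E] (d : E), d ≠ 0 →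
      ∀ (n : ℕ) (A : Type) [CommRing A] [Algebra E A] (𝒜 : ℕ → Submodule E A)
        [GradedAlgebra 𝒜] (ι : A →ₐ[E] MvPolynomial (Fin (n + 1) × Bool) E),
        Function.Injective ι →
        (∀ k, (𝒜 k).map ι.toLinearMap = hermitianForms d n ^ k) →
      ∀ (V : Scheme.{0}), Nonempty (V ≅ Proj 𝒜) →
      ∃ (Y : Scheme.{0}),
        IsIntegral Y ∧
        IsLocallyNoetherian Y ∧
        (∀ (U : Y.affineOpens) (p : PrimeSpectrum (Y.presheaf.obj (Opposite.op U.1))),
          ringKrullDim (Localization.AtPrime p.asIdeal) =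
            (((Module.finrank (IsLocalRing.ResidueField (Localization.AtPrime p.asIdeal))
              (IsLocalRing.CotangentSpace (Localization.AtPrime p.asIdeal)) : ℕ) : ℕ∞) :
                WithBot ℕ∞)) ∧
        (∃ (B : Type) (_ : CommRing B) (ℬ : ℕ → Submodule ℤ B) (_ : GradedAlgebra ℬ),
          (∀ a ∈ ℬ 0, ∃ n : ℤ, (n : B) = a) ∧
          (∃ s : Finset B, (∀ a ∈ s, a ∈ ℬ 1) ∧ Algebra.adjoin ℤ (s : Set B) = ⊤) ∧
          Nonempty (Y ≅ Proj ℬ)) ∧
        Flat (specZIsTerminal.from Y) ∧
        Nonempty (pullback (specZIsTerminal.from Y)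
            (specZIsTerminal.from (Spec (CommRingCat.of ℚ))) ≅ V) := by
  intro E _ _ d hd n A _ _ 𝒜 _ ι hι h𝒜 V hV
  exact Pool.Agent.W558.RM.wrz (I := Fin (n + 1)) hd 𝒜 ι hι h𝒜 V hV

end Pool.Agent.Results.MP_602153_ag.WeilRestrictions
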